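import Pool.Agent.MP_4b405e_nt.H6.NoSl
import Pool.Agent.MP_5168f5_an.QA.All

/-! The multiplicity is at most the length of the paid windows, assembled. -/

namespace Pool.Agent.MP_5168f5_an.QA.Perf

theorem noSl : NoSl :=
  noSl_of sE1 sE2 sCnt sCntF blkF sOpG ofFill ofTig ofExt ofNJ sChn toTig (end_of sP5 Cp.noPG)

end Pool.Agent.MP_5168f5_an.QA.Perf
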