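import Pool.Agent.MP_4b405e_nt.H6.Near
import Pool.Agent.MP_5168f5_an.QA.HEn

/-! A law on a uniformly perfect set that branches at all dyadic levels. -/

namespace Pool.Agent.MP_5168f5_an.QA.Perf

open H19 H17S H17F MX Finset

/-- The words agree below `k`. -/
def Ag {M : ℕ} (k : ℕ) (u v : Fin M → Bool) : Prop := ∀ i : Fin M, i.1 < k → u i = v i

theorem prod_two (k M : ℕ) : ∏ x ∈ range M, (if x < k then 1 else 2 : ℕ) = 2 ^ (M - k) := by
  induction M with
  | zero => simp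
  | succ M ih =>
    rw [prod_range_succ, ih]
    split_ifs with h
    · rw [mul_one]; congr 1; omega
    · rw [← pow_succ]; congr 1; omega

theorem pb_ag {M : ℕ} (k : ℕ) (v : Fin M → Bool) :
    pb (FP.unif univ univ_nonempty) (fun u => Ag k u v) = 2 ^ (M - k) / 2 ^ M := by
  classical
  have a : univ.filter (fun u => Ag k u v) =
      Fintype.piFinset fun i : Fin M => if i.1 < k then {v i} else univ := by
    ext u
    simp only [mem_filter, mem_univ, true_and, Fintype.mem_piFinset, Ag]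
    refine forall_congr' fun i => ?_
    split_ifs with h <;> simp [h]
  have b : (univ.filter fun u => Ag k u v).card = 2 ^ (M - k) := by
    rw [a, Fintype.card_piFinset, ← prod_two,
      ← Fin.prod_univ_eq_prod_range (fun x => if x < k then 1 else 2) M]
    refine prod_congr rfl fun i _ => ?_
    split_ifs <;> simp
  rw [pb_eq]
  simp only [FP.unif, sum_const, nsmul_eq_mul, card_univ, Fintype.card_pi, Fintype.card_bool,
    prod_const, Fintype.card_fin]
  rw [show (filter (fun u => Ag k u v) univ).card = 2 ^ (M - k) by convert b]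
  push_cast
  ring

section

variable {T : Set ℝ} {j M : ℕ} (r : Nd T j) (f : Nd T j → Bool → Nd T j)

/-- The path of a word. -/
def nd (u : Fin M → Bool) : ℕ → Nd T j
  | 0 => r
  | i + 1 => f (nd u i) (if h : i < M then u ⟨i, h⟩ else false)

theorem nd_ag {u v : Fin M → Bool} : ∀ k, Ag k u v → nd r f u k = nd r f v k
  | 0, _ => rfl
  | k + 1, h => by
    rw [nd, nd, nd_ag k fun i e => h i (by omega)]
    split_ifs with e
    · rw [h ⟨k, e⟩ (Nat.lt_succ_self k)]
    · rfl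

variable {r f} (h1 : ∀ x b, x.l ≤ (f x b).l ∧ (f x b).l ≤ x.l + 2 * j ∧
    fl1 x.l (f x b).t = fl1 x.l x.t)
  (h2 : ∀ x, x.l + j + 3 ≤ M → (∀ b, x.l + j ≤ (f x b).l) ∧
    fl1 (x.l + j) (f x true).t ≠ fl1 (x.l + j) (f x false).t)

include h1 in
theorem nd_le (u : Fin M → Bool) {i k : ℕ} (e : i ≤ k) : (nd r f u i).l ≤ (nd r f u k).l ∧
    fl1 (nd r f u i).l (nd r f u k).t = fl1 (nd r f u i).l (nd r f u i).t := by
  induction k, e using Nat.le_induction with
  | base => exact ⟨le_rfl, rfl⟩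
  | succ k _ ih =>
    exact ⟨ih.1.trans (h1 _ _).1, (fl1_eq_of_le ih.1 (h1 _ _).2.2).trans ih.2⟩

include h1 h2 in
theorem first (j1 : 1 ≤ j) (r0 : r.l ≤ 2 * j) (u : Fin M → Bool) : ∀ c, c + j + 3 ≤ M →
    ∃ i ≤ c, c ≤ (nd r f u i).l ∧ (nd r f u i).l ≤ c + 2 * j := by
  intro c
  induction c with
  | zero => exact fun _ => ⟨0, le_rfl, Nat.zero_le _, by rwa [zero_add]⟩
  | succ c ih =>
    intro e
    obtain ⟨i, i1, i2, i3⟩ := ih (by omega)
    by_cases k : c + 1 ≤ (nd r f u i).l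
    · exact ⟨i, by omega, k, by omega⟩
    · have a := (h2 (nd r f u i) (by omega)).1 (if h : i < M then u ⟨i, h⟩ else false)
      have b := (h1 (nd r f u i) (if h : i < M then u ⟨i, h⟩ else false)).2.1
      exact ⟨i + 1, by omega, by rw [nd]; omega, by rw [nd]; omega⟩

include h1 h2 in
theorem ag_of {u v : Fin M → Bool} {d : ℕ} (hd : d + 3 ≤ M)
    (e : fl1 d (nd r f u M).t = fl1 d (nd r f v M).t) :
    ∀ k, k ≤ M → (∀ i < k, (nd r f v i).l + j ≤ d) → Ag k u v := by
  intro k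
  induction k with
  | zero => exact fun _ _ i a => absurd a (Nat.not_lt_zero _)
  | succ k ih =>
    intro a b i hi
    have c := ih (by omega) fun i e => b i (by omega)
    rcases Nat.lt_succ_iff_lt_or_eq.1 hi with g | g
    · exact c i g
    by_contra ne
    have b1 := b k (Nat.lt_succ_self k)
    obtain ⟨p1, p2⟩ := h2 (nd r f v k) (by omega)
    have s : ∀ w : Fin M → Bool, nd r f w k = nd r f v k → fl1 ((nd r f v k).l + j) (nd r f w M).t =
        fl1 ((nd r f v k).l + j) (f (nd r f v k) (w i)).t := fun w hw => by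
      have z := (nd_le (r := r) h1 w a).2
      have z' : nd r f w (k + 1) = f (nd r f v k) (w i) := by
        rw [nd, hw, dif_pos (show k < M by omega)]
        congr 2
        exact Fin.ext g.symm
      rw [z'] at z
      exact fl1_eq_of_le (p1 _) z
    have t := ((s u (nd_ag r f k c)).symm.trans (fl1_eq_of_le b1 e)).trans (s v rfl)
    revert ne t
    cases u i <;> cases v i <;> simp [p2, p2.symm]

include h1 h2 in
theorem br_nd (j1 : 1 ≤ j) (r0 : r.l ≤ 2 * j) {c : ℕ} (hc : c + 7 * j + 3 ≤ M) :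
    Br (FP.unif univ univ_nonempty) (fun u : Fin M → Bool => (nd r f u M).t) c (7 * j) := by
  intro v hv
  obtain ⟨i, i1, i2, i3⟩ := first h1 h2 j1 r0 v c (by omega)
  have l1 : (nd r f v (i + 1)).l ≤ (nd r f v i).l + 2 * j := (h1 _ _).2.1
  have l2 : (nd r f v (i + 2)).l ≤ (nd r f v (i + 1)).l + 2 * j := (h1 _ _).2.1
  have a := cm_eq (P := FP.unif univ univ_nonempty) (fun u => fl1 c (nd r f u M).t)
    (fun u => fl1 (c + 7 * j) (nd r f u M).t) v
  have b := (pb_mono (P := FP.unif univ univ_nonempty) (E := fun u => fl1 c (nd r f u M).t =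
    fl1 c (nd r f v M).t ∧ fl1 (c + 7 * j) (nd r f u M).t = fl1 (c + 7 * j) (nd r f v M).t)
    fun u _ e => ag_of h1 h2 hc e.2 (i + 3) (by omega) fun k hk => by
      have := (nd_le (r := r) h1 v (show k ≤ i + 2 by omega)).1
      omega).trans_eq (pb_ag _ v)
  have d := (pb_ag i v).symm.trans_le (pb_mono (P := FP.unif univ univ_nonempty)
    (F := fun u => fl1 c (nd r f u M).t = fl1 c (nd r f v M).t) fun u _ e => by
      have z := (nd_le (r := r) h1 u (show i ≤ M by omega)).2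
      rw [nd_ag r f i e] at z
      exact fl1_eq_of_le i2 (z.trans (nd_le (r := r) h1 v (show i ≤ M by omega)).2.symm))
  rw [show M - i = M - (i + 3) + 3 by omega, pow_add] at d
  have p : (0 : ℝ) < 2 ^ (M - (i + 3)) / 2 ^ M := by positivity
  rw [mul_div_right_comm] at d
  refine le_of_mul_le_mul_left ?_ (lt_of_lt_of_le (by positivity) d)
  rw [a]
  linarith

end

/-- The law. -/
theorem tree {c : ℝ} (hc : 0 < c) : ∃ m : ℕ, ∀ (δ : ℝ) (T : Set ℝ) (M : ℕ), T.Nonempty →
    UP c δ T → 2 ^ M * δ ≤ 1 → ∃ (W : Type) (Q : FP W) (t : W → ℝ), (∀ w, t w ∈ T) ∧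
      ∀ l, l + m ≤ M → Br Q t l m := by
  obtain ⟨j₀, hj⟩ := pow_unbounded_of_one_lt (32 / c) (one_lt_two (α := ℝ))
  obtain ⟨j, j1, hj⟩ : ∃ j : ℕ, 1 ≤ j ∧ 32 ≤ 2 ^ j * c := ⟨j₀ + 1, by omega, by
    rw [div_lt_iff₀ hc] at hj
    rw [pow_succ]
    nlinarith⟩
  refine ⟨7 * j + 3, fun δ T M hT h hM => ?_⟩
  have k : ∀ l, l + 3 ≤ M → 8 * 2 ^ l * δ ≤ 1 := fun l e => by
    rcases le_total δ 0 with d | d
    · exact (mul_nonpos_of_nonneg_of_nonpos (by positivity) d).trans zero_le_one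
    · refine le_trans (mul_le_mul_of_nonneg_right ?_ d) hM
      exact le_trans (le_of_eq (by ring)) (pow_le_pow_right₀ one_le_two e)
  by_cases e : j + 3 ≤ M
  swap
  · obtain ⟨t, ht⟩ := hT
    exact ⟨Unit, FP.unif univ univ_nonempty, fun _ => t, fun _ => ht, fun l a => by omega⟩
  obtain ⟨r, r0⟩ := root h hj hT (k j e)
  have ex : ∀ x : Nd T j, ∃ f : Bool → Nd T j, (∀ b, x.l ≤ (f b).l ∧ (f b).l ≤ x.l + 2 * j ∧
      fl1 x.l (f b).t = fl1 x.l x.t) ∧ (x.l + j + 3 ≤ M → (∀ b, x.l + j ≤ (f b).l) ∧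
      fl1 (x.l + j) (f true).t ≠ fl1 (x.l + j) (f false).t) := fun x => by
    by_cases a : x.l + j + 3 ≤ M
    · obtain ⟨f, f1, f2⟩ := two h hj j1 x (k _ a)
      exact ⟨f, fun b => ⟨(Nat.le_add_right _ _).trans (f1 b).1, (f1 b).2⟩,
        fun _ => ⟨fun b => (f1 b).1, f2⟩⟩
    · exact ⟨fun _ => x, fun _ => ⟨le_rfl, Nat.le_add_right _ _, rfl⟩, fun b => absurd b a⟩
  choose f f1 f2 using ex
  refine ⟨Fin M → Bool, FP.unif univ univ_nonempty, fun u => (nd r f u M).t, fun _ => Nd.mem _,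
    fun l a v hv => le_trans (cm_mono hv fun _ _ _ _ u => ?_) (br_nd f1 f2 j1 r0 (by omega) v hv)⟩
  exact fl1_eq_of_le (by omega) (congrArg Prod.fst u)

end Pool.Agent.MP_5168f5_an.QA.Perf
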