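import Pool.Agent.MP_4b405e_nt.H6.MuB
import Pool.Agent.MP_4b405e_nt.H6.Tree

/-! From entropy to covering numbers. -/

namespace Pool.Agent.MP_5168f5_an.QA.Perf

open H19 H17S H17F MX Filter

/-- Euclidean space. -/
abbrev Eu (n : ℕ) : Type := EuclideanSpace ℝ (Fin n)

variable {n : ℕ}

theorem co_le (x y : Eu n) (i : Fin n) : |x i - y i| ≤ dist x y := by
  simpa [dist_eq_norm] using PiLp.norm_apply_le (x - y) i

theorem sep {x y : Eu n} {δ : ℝ} {M : ℕ} (h : 1 < 2 ^ (M + 1) * δ)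
    (e : fl (M + (n + 2)) (fun i => x i / 2) = fl (M + (n + 2)) fun i => y i / 2) :
    dist x y < δ := by
  have p : (0 : ℝ) < 2 ^ (M + 1) := by positivity
  have d0 : 0 < δ := (pos_iff_pos_of_mul_pos (one_pos.trans h)).1 p
  have q : (n : ℝ) < 2 ^ n := by exact_mod_cast Nat.lt_two_pow_self
  have q1 : (1 : ℝ) ≤ 2 ^ n := one_le_pow₀ one_le_two
  have a : ∀ i, dist (x i) (y i) ^ 2 ≤ (δ / 2 ^ n) ^ 2 := fun i => by
    refine pow_le_pow_left₀ dist_nonneg ?_ 2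
    have b := abs_sub_lt_of_fl1_eq (j := M + (n + 2)) (x := x i / 2) (y := y i / 2) (congrFun e i)
    rw [← sub_div, abs_div, abs_two, ← one_div, lt_div_iff₀ (by positivity),
      show M + (n + 2) = M + 1 + n + 1 by ring, pow_succ, pow_add] at b
    rw [Real.dist_eq, le_div_iff₀ (by positivity)]
    refine le_of_mul_le_mul_left ?_ p
    linarith
  rw [EuclideanSpace.dist_eq, Real.sqrt_lt' d0]
  refine (Finset.sum_le_sum fun i _ => a i).trans_lt ?_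
  rw [Finset.sum_const, Finset.card_univ, Fintype.card_fin, nsmul_eq_mul, div_pow,
    ← mul_div_assoc, div_lt_iff₀ (by positivity)]
  have : (n : ℝ) < (2 ^ n) ^ 2 := by nlinarith
  nlinarith [pow_pos d0 2]

theorem ch_pt {W : Type} {R : Finset (Eu n)} (hR : R.Nonempty) (Q : FP W) {a : Eu n → Eu n}
    {t : W → ℝ} {δ : ℝ} {M g K : ℕ} {𝒰 : W → Finset (Set (Eu n))} {U : W → Eu n → Set (Eu n)}
    {G : W → ℤ} (hM : 2 ^ M * δ ≤ 1) (t0 : ∀ w, 0 ≤ t w ∧ t w ≤ 1)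
    (r0 : ∀ r ∈ R, ∀ i, 0 ≤ r i ∧ r i ≤ 1) (hG : ∀ w w', G w = G w' → t w = t w' ∧ 𝒰 w = 𝒰 w')
    (hK : ∀ w, (𝒰 w).card ≤ K) (hU : ∀ w, ∀ V ∈ 𝒰 w, ∀ x ∈ V, ∀ y ∈ V, dist x y ≤ δ)
    (hm : ∀ w, ∀ r ∈ R, U w r ∈ 𝒰 w ∧ a r + t w • r ∈ U w r) :
    ch (prod (FP.unif R hR) Q) (fun v => fl (M + g) ((fun i => Int.fract (a v.1 i / 4)) +
      (t v.2 / 2) • fun i => v.1 i / 2)) (fun v => G v.2) ≤ Real.log K + 10 * n + n * g * lg := by
  have mem : ∀ v ∈ (prod (FP.unif R hR) Q).S, v.1 ∈ R := fun v e => ((AB.mem_prod v).1 e).1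
  have p1 : (1 : ℝ) ≤ 2 ^ M := one_le_pow₀ one_le_two
  have near : ∀ u ∈ (prod (FP.unif R hR) Q).S, ∀ v ∈ (prod (FP.unif R hR) Q).S,
      (U u.2 u.1, G u.2) = (U v.2 v.1, G v.2) → ∀ i,
      |a u.1 i + t u.2 * u.1 i - (a v.1 i + t v.2 * v.1 i)| ≤ δ := fun u hu v hv e i =>
    (co_le (a u.1 + t u.2 • u.1) (a v.1 + t v.2 • v.1) i).trans (hU u.2 _ (hm _ _ (mem u hu)).1 _
      (hm _ _ (mem u hu)).2 _
      (by rw [show U u.2 u.1 = U v.2 v.1 from congrArg Prod.fst e]; exact (hm _ _ (mem v hv)).2))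
  have h1 : ch (prod (FP.unif R hR) Q) (fun v => U v.2 v.1) (fun v => G v.2) ≤ Real.log K :=
    ch_det fun u _ => ⟨𝒰 u.2, by exact_mod_cast hK _, fun v hv e =>
      (hG _ _ e).2 ▸ (hm _ _ (mem v hv)).1⟩
  have h2 := ch_fl_near (P := prod (FP.unif R hR) Q) (x := fun v i => a v.1 i / 4) (j := 0) (n := 1)
    (G := fun v => (U v.2 v.1, G v.2)) (by norm_num) fun u hu v hv e =>
      (pi_norm_le_iff_of_nonneg (by positivity)).2 fun i => by
        have b := abs_le.1 (near u hu v hv e i)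
        have b1 := r0 _ (mem u hu) i
        have b2 := r0 _ (mem v hv) i
        have b3 : δ ≤ 1 := by nlinarith
        simp only [Pi.sub_apply, Real.norm_eq_abs, abs_le, Nat.cast_one, pow_zero, inv_one, mul_one]
        constructor <;> nlinarith [t0 u.2, t0 v.2, mul_nonneg (t0 u.2).1 b1.1,
          mul_nonneg (t0 v.2).1 b2.1, mul_le_one₀ (t0 u.2).2 b1.1 b1.2,
          mul_le_one₀ (t0 v.2).2 b2.1 b2.2]
  have h3 := ch_fl_near (P := prod (FP.unif R hR) Q) (x := fun v =>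
    (fun i => Int.fract (a v.1 i / 4)) + (t v.2 / 2) • fun i => v.1 i / 2) (j := M) (n := 1)
    (G := fun v => (fl 0 fun i => a v.1 i / 4, U v.2 v.1, G v.2)) (by norm_num) fun u hu v hv e =>
      (pi_norm_le_iff_of_nonneg (by positivity)).2 fun i => by
        have b := abs_le.1 (near u hu v hv (Prod.ext_iff.1 e).2 i)
        have b1 := congrFun (Prod.ext_iff.1 e).1 i
        simp only [fl, pow_zero, one_mul] at b1
        have b2 : δ ≤ (2 ^ M)⁻¹ := by rw [← one_div, le_div_iff₀' (by positivity)]; exact hM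
        simp only [Pi.sub_apply, Pi.add_apply, Pi.smul_apply, smul_eq_mul, Real.norm_eq_abs, abs_le,
          Nat.cast_one, one_mul, Int.fract, b1]
        constructor <;> linarith
  refine (ch_tri' _ _ fun v =>
    fl M ((fun i => Int.fract (a v.1 i / 4)) + (t v.2 / 2) • fun i => v.1 i / 2)).trans ?_
  have h4 := ch_fl_refine (P := prod (FP.unif R hR) Q) (i := g) (Fn.rfl fun v =>
    fl M ((fun i => Int.fract (a v.1 i / 4)) + (t v.2 / 2) • fun i => v.1 i / 2))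
  have h5 := ch_tri (P := prod (FP.unif R hR) Q) (fun v =>
    fl M ((fun i => Int.fract (a v.1 i / 4)) + (t v.2 / 2) • fun i => v.1 i / 2))
    (fun v => U v.2 v.1) fun v => G v.2
  have h6 := ch_tri (P := prod (FP.unif R hR) Q) (fun v =>
    fl M ((fun i => Int.fract (a v.1 i / 4)) + (t v.2 / 2) • fun i => v.1 i / 2))
    (fun v => fl 0 fun i => a v.1 i / 4) fun v => (U v.2 v.1, G v.2)
  linarith

theorem cover (h : NoSl) (n : ℕ) {c ε : ℝ} (hc : 0 < c) (hε : 0 < ε) : ∃ C : ℝ, ∀ (δ : ℝ)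
    (T : Set ℝ) (R : Finset (Eu n)) (a : Eu n → Eu n) (K : ℕ), 0 < δ → δ ≤ 1 → T.Nonempty →
    T ⊆ Set.Icc 0 1 → UP c δ T → (∀ r ∈ R, ∀ i, r i ∈ Set.Icc (0 : ℝ) 1) →
    (∀ r ∈ R, ∀ r' ∈ R, r ≠ r' → δ ≤ dist r r') →
    (∀ t ∈ T, ∃ 𝒰 : Finset (Set (Eu n)), 𝒰.card ≤ K ∧ (∀ U ∈ 𝒰, ∀ x ∈ U, ∀ y ∈ U, dist x y ≤ δ) ∧
      ∀ r ∈ R, ∃ U ∈ 𝒰, a r + t • r ∈ U) → (R.card : ℝ) ≤ C * δ ^ (-ε) * K := by
  obtain ⟨m, hm⟩ := tree (half_pos hc)
  have l0 := lg_pos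
  obtain ⟨C, hC⟩ := cfg h n (m + (n + 2)) (mul_pos hε l0)
  refine ⟨Real.exp (ε * lg * (n + 2) + C + 10 * n + n * (n + 2) * lg),
    fun δ T R a K d0 d1 hT T1 hp r1 r2 hK => ?_⟩
  rcases R.eq_empty_or_nonempty with e | hR
  · rw [e, Finset.card_empty, Nat.cast_zero]; positivity
  obtain ⟨M, m1, m2⟩ := exists_nat_pow_near (x := 1 / δ) ((one_le_div d0).2 d1) one_lt_two
  rw [le_div_iff₀ d0] at m1
  rw [div_lt_iff₀ d0] at m2
  obtain ⟨W, Q, s, s1, s2⟩ := hm (δ / 2) ((· / 2) '' T) M (hT.image _) (by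
    rintro _ ⟨t, ht, rfl⟩ ρ a1 a2
    obtain ⟨u, hu, u1, u2⟩ := hp t ht (2 * ρ) (by linarith) (by linarith)
    refine ⟨u / 2, ⟨u, hu, rfl⟩, ?_⟩
    rw [← sub_div, abs_div, abs_two]
    constructor <;> nlinarith) (by linarith)
  choose t t1 t2 using s1
  choose! 𝒰 u1 u2 u3 using hK
  have ne : Nonempty W := by
    by_contra k
    have := Q.sum_one
    rw [not_nonempty_iff] at k
    rw [Finset.eq_empty_of_isEmpty Q.S, Finset.sum_empty] at this
    exact zero_ne_one this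
  obtain ⟨ρ, ρ1, ρ2⟩ : ∃ ρ : W → W, (∀ w, fl1 (M + (n + 2)) (s (ρ w)) = fl1 (M + (n + 2)) (s w)) ∧
      ∀ w w', fl1 (M + (n + 2)) (s w) = fl1 (M + (n + 2)) (s w') → ρ w = ρ w' :=
    ⟨fun w => Function.invFun (fun w => fl1 (M + (n + 2)) (s w)) (fl1 (M + (n + 2)) (s w)),
      fun w => Function.invFun_eq (f := fun w => fl1 (M + (n + 2)) (s w)) ⟨w, rfl⟩,
      fun w w' e => by simp only [e]⟩
  have ρ3 : ∀ w w', fl1 (M + (n + 2)) (t (ρ w) / 2) = fl1 (M + (n + 2)) (t (ρ w') / 2) →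
      ρ w = ρ w' := fun w w' e => ρ2 _ _ (by rw [← ρ1 w, ← ρ1 w', ← t2, ← t2]; exact e)
  choose! U v1 v2 using fun w => u3 _ (t1 (ρ w))
  have k1 := hC (Eu n) W (M + (n + 2)) (FP.unif R hR) (fun r i => Int.fract (a r i / 4))
    (fun r i => r i / 2) Q (fun w => t (ρ w) / 2)
    (fun r i => ⟨Int.fract_nonneg _, Int.fract_lt_one _⟩)
    (fun r hr i => ⟨by linarith [(r1 r hr i).1], by linarith [(r1 r hr i).2]⟩)
    (fun w => ⟨by linarith [(T1 (t1 (ρ w))).1], by linarith [(T1 (t1 (ρ w))).2]⟩)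
    (fun r hr r' hr' e => by_contra fun k => (r2 r hr r' hr' k).not_gt (sep m2 e))
    (fun w w' e => by rw [ρ3 w w' e]) fun l hl v hv => by
      have z : ∀ k ≤ M + (n + 2), ∀ w, fl1 k (t (ρ w) / 2) = fl1 k (s w) := fun k hk w =>
        fl1_eq_of_le hk ((congrArg _ (t2 _)).trans (ρ1 w))
      simp only [z l (by omega), z _ hl]
      exact le_trans (cm_mono hv fun _ _ _ _ e => fl1_eq_of_le (by omega) (congrArg Prod.fst e))
        (s2 l (by omega) v hv)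
  have k2 := ch_pt hR Q (a := a) (t := fun w => t (ρ w)) (g := n + 2) (𝒰 := fun w => 𝒰 (t (ρ w)))
    (U := U) (G := fun w => fl1 (M + (n + 2)) (t (ρ w) / 2)) m1 (fun w => T1 (t1 _)) r1
    (fun w w' e => by simp only [ρ3 w w' e, and_self]) (fun w => u1 _ (t1 _))
    (fun w => u2 _ (t1 _)) fun w r hr => ⟨v1 w r hr, v2 w r hr⟩
  have k3 : hh (FP.unif R hR) id = Real.log R.card := by
    rw [← FP.H_unif R hR]
    exact (FP.unif R hR).H_congr fun a _ b _ => by simp [Setoid.ker_def]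
  have K0 : (0 : ℝ) < K := by
    obtain ⟨r, hr⟩ := hR
    obtain ⟨w⟩ := ne
    exact_mod_cast (Finset.card_pos.2 ⟨_, v1 w r hr⟩).trans_le (u1 _ (t1 _))
  have k4 : M * lg ≤ -Real.log δ := by
    have := Real.log_nonpos (by positivity) m1
    rw [Real.log_mul (by positivity) d0.ne', Real.log_pow] at this
    unfold lg
    linarith
  rw [Real.rpow_def_of_pos d0, ← Real.exp_log K0, ← Real.exp_add, ← Real.exp_add,
    ← Real.log_le_iff_le_exp (by exact_mod_cast hR.card_pos)]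
  push_cast at k1 k2
  nlinarith [mul_le_mul_of_nonneg_left k4 hε.le]

end Pool.Agent.MP_5168f5_an.QA.Perf
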