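import Pool.Agent.MP_4b405e_nt.H6.NoSl
import Pool.Agent.MP_5168f5_an.AN.GNZ0
import Pool.Agent.MP_5168f5_an.MX.ABApi

/-! Heights that branch at all levels give no multiplicity. -/

namespace Pool.Agent.MP_5168f5_an.QA.Perf

open H19 H17S H17F MX Filter

variable {N : ℕ}

/-- The height given the line branches at all levels. -/
def BrC (x : Cfg N) (m M : ℕ) : Prop := ∀ c, c + m ≤ M → ∀ ω ∈ x.P.S,
  cm x.P (fun v => (fl1 c (x.z v), x.ln v)) (fun v => fl1 (c + m) (x.z v)) ω ≤ 1 / 8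

theorem df_nn {x : Cfg N} (h : x.Box) (M : ℕ) : 0 ≤ df x M := by
  have a := ch_rf (P := x.P) M (fn_zero h)
  rw [zero_add] at a
  unfold df
  linarith

theorem muB (h : NoSl) {m : ℕ} {x : ℕ → Cfg N} {M : ℕ → ℕ} (hx : DSK x M)
    (hb : ∀ n, BrC (x n) m (M n)) : Sm M fun n => mu (x n) (M n) := by
  intro η h0
  by_contra k
  refine h N η h0 fun ε hε => ?_
  obtain ⟨L, l1, l2, -⟩ := ex_mid (M₀ := fun _ => 0) hx.big Le.rfl
  choose kf hk using fun i : ℕ => ht1_ent m (θ := 1 / (i + 1 : ℝ)) (by positivity)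
  refine ⟨x, M, L, fun _ => ∅, fun _ _ => 0, ⟨hx, .of_forall fun n => ?_, .of_forall fun n => ?_,
    fun _ => ⟨monotone_const, rfl⟩, .of_forall fun n => by positivity,
    fun A => ⟨kf, fun i a b u hu e _ => ?_⟩⟩, l1, l2, (not_ev.1 k).mono fun n a => ?_⟩
  · have := df_nn (hx.box n) (M n)
    simp only [Finset.card_empty, Nat.cast_zero, zero_mul]
    positivity
  · rw [Finset.sum_empty]; positivity
  · simpa only [Finset.card_empty, Nat.cast_zero, mul_zero, sub_zero] using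
      hk i (fun n => (x n).P) (fun n => (x n).z) (fun n => (x n).ln) u a b (fun _ => ∅) hu
        (e.mono fun n g => ⟨g.1, fun c _ c2 _ => hb n c (c2.trans g.2.1)⟩)
  · simp only [Finset.card_empty, Nat.cast_zero, zero_mul, mul_zero]
    exact (not_le.1 a).le

theorem fin1 (h : NoSl) (N m : ℕ) {ε : ℝ} (hε : 0 < ε) : ∃ C : ℝ, ∀ (M : ℕ) (x : Cfg N), x.Box →
    Fn x.P x.θ (fun _ => ()) → Fn x.P x.ln (fun ω => fl M (x.e ω)) →
    Fn x.P x.z (fun ω => fl1 M (x.z ω)) → BrC x m M → mu x M ≤ ε * M + C := by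
  by_contra k
  simp only [not_exists, not_forall, not_le] at k
  choose M x a1 a2 a3 a4 a5 a6 using fun j : ℕ => k (N * j * lg)
  have b : ∀ j, j ≤ M j := fun j => by
    by_contra e
    have c := ch_fl_refine (P := (x j).P) (x := (x j).e) (j := 0) (i := M j) (G := fun ω =>
      (fl (M j) ((x j).pt ω), fl1 (M j) ((x j).z ω), (x j).θ ω)) fun a ha b hb _ => funext fun i =>
        (fl1_zero_of_box ((a1 j a ha).2.1 i).1 ((a1 j a ha).2.1 i).2).trans
          (fl1_zero_of_box ((a1 j b hb).2.1 i).1 ((a1 j b hb).2.1 i).2).symm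
    rw [zero_add] at c
    have d : (M j : ℝ) ≤ j := by exact_mod_cast (not_le.1 e).le
    have f := mul_le_mul_of_nonneg_right (mul_le_mul_of_nonneg_left d (Nat.cast_nonneg (α := ℝ) N))
      lg_pos.le
    have g := a6 j
    unfold mu at g
    nlinarith [Nat.cast_nonneg (α := ℝ) (M j)]
  obtain ⟨j, c⟩ := (muB h ⟨tendsto_atTop_mono b (tendsto_atTop.2 ev_ge), a1, a2, a3, a4⟩ a5
    ε hε).exists
  have : 0 ≤ N * j * lg := by have := lg_pos; positivity
  linarith [a6 j]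

theorem cm_prod {ι W T α β : Type} {P : FP ι} {Q : FP W} {K : ι → T} (B : W → β) (F : W → α)
    (h : Fn P id K) {v : ι × W} (hv : v ∈ (prod P Q).S) :
    cm (prod P Q) (fun u => (B u.2, K u.1)) (fun u => F u.2) v = cm Q B F v.2 := by
  rw [cm_ctx (Θ' := fun u => (u.1, B u.2)) (fun u _ w _ g => by
    simp only [Prod.mk.injEq] at g
    rw [g.1, g.2]) (fun u hu w hw g => by
    simp only [Prod.mk.injEq] at g
    exact Prod.ext (h _ ((AB.mem_prod u).1 hu).1 _ ((AB.mem_prod w).1 hw).1 g.2) g.1) _ hv]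
  exact AN.Nz.pb_cv_prod B hv fun u => F u.2 = F v.2

theorem cfg (h : NoSl) (N m : ℕ) {ε : ℝ} (hε : 0 < ε) : ∃ C : ℝ, ∀ (ι W : Type) (M : ℕ)
    (P : FP ι) (A e : ι → V N) (Q : FP W) (z : W → ℝ),
    (∀ r i, 0 ≤ A r i ∧ A r i < 1) → (∀ r ∈ P.S, ∀ i, 0 ≤ e r i ∧ e r i < 1) →
    (∀ w, 0 ≤ z w ∧ z w < 1) → Fn P id (fun r => fl M (e r)) →
    (∀ w w', fl1 M (z w) = fl1 M (z w') → z w = z w') → (∀ l, l + m ≤ M → Br Q z l m) →
    hh P id ≤ ε * M + C + ch (prod P Q)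
      (fun v => fl M (A v.1 + z v.2 • e v.1)) fun v => fl1 M (z v.2) := by
  obtain ⟨C, hC⟩ := fin1 h N m hε
  refine ⟨C, fun ι W M P A e Q z a1 a2 a3 a4 a5 a6 => ?_⟩
  have mem : ∀ v ∈ (prod P Q).S, v.1 ∈ P.S ∧ v.2 ∈ Q.S := fun v => (AB.mem_prod v).1
  have k : ch (prod P Q) (fun v => fl M (e v.1))
      (fun v => (fl M (A v.1 + z v.2 • e v.1), fl1 M (z v.2), ())) ≤ ε * M + C :=
    hC M ⟨ι × W, Unit, prod P Q, fun v => A v.1, fun v => e v.1, fun v => z v.2, fun _ => ()⟩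
      (fun v hv => ⟨a1 _, a2 _ (mem v hv).1, a3 _⟩) (fun _ _ _ _ _ => rfl)
      (fun u hu v hv g => congrArg (fun r => (A r, e r, ())) (a4 _ (mem u hu).1 _ (mem v hv).1 g))
      (fun u _ v _ g => a5 _ _ g) fun c hc v hv =>
        (cm_prod (K := fun r => (A r, e r, ())) (fun w => fl1 c (z w)) (fun w => fl1 (c + m) (z w))
          (fun a ha b hb g => a4 a ha b hb (congrArg (fun y => fl M y.2.1) g)) hv).trans_le
          (a6 c hc v.2 (mem v hv).2)
  rw [hh_congr a4 fun _ _ _ _ g => congrArg (fun r => fl M (e r)) g,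
    ← AB.ch_prod_fst P Q _ fun w => fl1 M (z w)]
  refine (ch_tri' _ _ _).trans (add_le_add k (ch_mono fun u _ v _ g => ?_))
  simp only [Prod.mk.injEq] at g
  rw [g.1, g.2]

end Pool.Agent.MP_5168f5_an.QA.Perf
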