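import Pool.Agent.MP_5168f5_an.H17S.FlApi

/-! Points of a uniformly perfect set that lie well inside a dyadic interval. -/

namespace Pool.Agent.MP_5168f5_an.QA.Perf

open H17S

/-- The set is uniformly perfect with constant `c` down to the scale `δ`. -/
def UP (c δ : ℝ) (T : Set ℝ) : Prop :=
  ∀ t ∈ T, ∀ ρ : ℝ, δ ≤ ρ → ρ ≤ c → ∃ s ∈ T, c * ρ ≤ |s - t| ∧ |s - t| ≤ ρ

/-- The point is well inside its dyadic interval of level `l`. -/
def Ins (l : ℕ) (t : ℝ) : Prop := ∀ s : ℝ, 2 ^ l * |s - t| ≤ 1 / 8 → fl1 l s = fl1 l t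

theorem ins_of {l : ℕ} {t : ℝ} {p : ℤ} (h : 1 / 8 < |2 ^ l * t - p|) (h' : |2 ^ l * t - p| ≤ 1 / 2) :
    Ins l t := fun s e => by
  rw [← abs_of_pos (show (0 : ℝ) < 2 ^ l by positivity), ← abs_mul, mul_sub, abs_le] at e
  rw [abs_le] at h'
  unfold fl1
  rcases lt_abs.1 h with a | a
  · rw [Int.floor_eq_iff.2 (⟨by linarith, by linarith⟩ : (p : ℝ) ≤ 2 ^ l * s ∧ 2 ^ l * s < p + 1),
      Int.floor_eq_iff.2 (⟨by linarith, by linarith⟩ : (p : ℝ) ≤ 2 ^ l * t ∧ 2 ^ l * t < p + 1)]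
  · rw [(Int.floor_eq_iff (z := p - 1) (a := 2 ^ l * s)).2 (by push_cast; constructor <;> linarith),
      (Int.floor_eq_iff (z := p - 1) (a := 2 ^ l * t)).2 (by push_cast; constructor <;> linarith)]

theorem in_of (t : ℝ) : ∀ (j l : ℕ) (p : ℤ), 1 ≤ 2 ^ j * |2 ^ l * t - p| →
    |2 ^ l * t - p| ≤ 1 / 2 → ∃ i ≤ j, Ins (l + i) t := by
  intro j
  induction j with
  | zero => intro l p a b; rw [pow_zero] at a; linarith
  | succ j ih =>
    intro l p a b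
    by_cases e : 1 / 8 < |2 ^ l * t - p|
    · exact ⟨0, Nat.zero_le _, ins_of e b⟩
    · have k : |2 ^ (l + 1) * t - (2 * p : ℤ)| = 2 * |2 ^ l * t - p| := by
        rw [← abs_two, ← abs_mul]; congr 1; push_cast; ring
      obtain ⟨i, i1, i2⟩ := ih (l + 1) (2 * p) (by rw [k]; rw [pow_succ] at a; linarith)
        (by rw [k]; linarith [not_lt.1 e])
      exact ⟨i + 1, by omega, by rwa [show l + (i + 1) = l + 1 + i by ring]⟩

variable {c δ : ℝ} {T : Set ℝ} {j : ℕ}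

theorem near (h : UP c δ T) (hj : 32 ≤ 2 ^ j * c) {t : ℝ} (ht : t ∈ T) {l : ℕ}
    (h1 : 8 * 2 ^ l * δ ≤ 1) (h2 : 1 ≤ 8 * 2 ^ l * c) :
    ∃ s ∈ T, ∃ i ≤ j, 2 ^ l * |s - t| ≤ 1 / 8 ∧ Ins (l + i) s := by
  have p0 : (0 : ℝ) < 2 ^ l := by positivity
  have q0 : (0 : ℝ) < 2 ^ j := by positivity
  obtain ⟨u, hu, u1, u2⟩ := h t ht (1 / (8 * 2 ^ l)) (by rw [le_div_iff₀ (by positivity)]; linarith)
    (by rw [div_le_iff₀ (by positivity)]; linarith)
  rw [mul_one_div, div_le_iff₀ (by positivity)] at u1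
  rw [le_div_iff₀ (by positivity)] at u2
  by_cases e : 1 ≤ 2 ^ j * |2 ^ l * t - round (2 ^ l * t)|
  · obtain ⟨i, i1, i2⟩ := in_of t j l _ e (abs_sub_round _)
    exact ⟨t, ht, i, i1, by simp, i2⟩
  by_cases e' : 1 ≤ 2 ^ j * |2 ^ l * u - round (2 ^ l * u)|
  · obtain ⟨i, i1, i2⟩ := in_of u j l _ e' (abs_sub_round _)
    exact ⟨u, hu, i, i1, by linarith, i2⟩
  exfalso
  have k : |2 ^ l * u - 2 ^ l * t| = 2 ^ l * |u - t| := by
    rw [← mul_sub, abs_mul, abs_of_pos p0]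
  have a1 : |2 ^ l * t - round (2 ^ l * t)| < c / 32 := by
    refine lt_of_mul_lt_mul_left ?_ q0.le; linarith [not_le.1 e]
  have a2 : |2 ^ l * u - round (2 ^ l * u)| < c / 32 := by
    refine lt_of_mul_lt_mul_left ?_ q0.le; linarith [not_le.1 e']
  have a3 : |2 ^ l * u - 2 ^ l * t| ≤ 1 / 8 := by linarith
  have a4 : c / 8 ≤ |2 ^ l * u - 2 ^ l * t| := by linarith
  rw [abs_lt] at a1 a2
  have a5 : round (2 ^ l * u : ℝ) = round (2 ^ l * t : ℝ) := by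
    rw [abs_le] at a3
    have b1 : ((round (2 ^ l * u : ℝ) - round (2 ^ l * t : ℝ) : ℤ) : ℝ) < (1 : ℤ) := by
      push_cast; linarith
    have b2 : ((-1 : ℤ) : ℝ) < (round (2 ^ l * u : ℝ) - round (2 ^ l * t : ℝ) : ℤ) := by
      push_cast; linarith
    rw [Int.cast_lt] at b1 b2
    omega
  rw [a5] at a2
  rcases le_abs.1 a4 with b | b <;> linarith

/-- The nodes of the tree. -/
structure Nd (T : Set ℝ) (j : ℕ) : Type where
  t : ℝ
  l : ℕ
  mem : t ∈ T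
  ins : Ins l t
  deep : j ≤ l

theorem root (h : UP c δ T) (hj : 32 ≤ 2 ^ j * c) (hT : T.Nonempty) (h1 : 8 * 2 ^ j * δ ≤ 1) :
    ∃ x : Nd T j, x.l ≤ 2 * j := by
  obtain ⟨t, ht⟩ := hT
  obtain ⟨s, hs, i, i1, -, i2⟩ := near h hj ht h1 (by linarith)
  exact ⟨⟨s, j + i, hs, i2, by omega⟩, by show j + i ≤ _; omega⟩

theorem two (h : UP c δ T) (hj : 32 ≤ 2 ^ j * c) (j1 : 1 ≤ j) (x : Nd T j)
    (h1 : 8 * 2 ^ (x.l + j) * δ ≤ 1) : ∃ f : Bool → Nd T j,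
    (∀ b, x.l + j ≤ (f b).l ∧ (f b).l ≤ x.l + 2 * j ∧ fl1 x.l (f b).t = fl1 x.l x.t) ∧
    fl1 (x.l + j) (f true).t ≠ fl1 (x.l + j) (f false).t := by
  have p0 : (0 : ℝ) < 2 ^ x.l := by positivity
  have q0 : (0 : ℝ) < 2 ^ j := by positivity
  have q1 : (2 : ℝ) ≤ 2 ^ j := by simpa using pow_le_pow_right₀ (one_le_two (α := ℝ)) j1
  have q2 : (2 : ℝ) ^ j ≤ 2 ^ x.l := pow_le_pow_right₀ one_le_two x.deep
  have c0 : 0 < c := by nlinarith
  have h2 : 1 ≤ 8 * 2 ^ (x.l + j) * c := by rw [pow_add]; nlinarith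
  obtain ⟨u, hu, u1, u2⟩ := h x.t x.mem (1 / (16 * 2 ^ x.l)) (by
    rw [le_div_iff₀ (by positivity)]
    rw [pow_add] at h1
    rcases le_total δ 0 with e | e
    · nlinarith
    · nlinarith [mul_nonneg p0.le e]) (by rw [div_le_iff₀ (by positivity)]; nlinarith)
  rw [mul_one_div, div_le_iff₀ (by positivity)] at u1
  rw [le_div_iff₀ (by positivity)] at u2
  obtain ⟨s, hs, i, i1, s1, s2⟩ := near h hj x.mem h1 h2
  obtain ⟨s', hs', i', i1', s1', s2'⟩ := near h hj hu h1 h2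
  rw [pow_add] at s1 s1'
  have n1 := abs_nonneg (s - x.t)
  have n2 := abs_nonneg (s' - u)
  refine ⟨fun b => bif b then ⟨s, x.l + j + i, hs, s2, by omega⟩ else
    ⟨s', x.l + j + i', hs', s2', by omega⟩, fun b => ?_, fun e => ?_⟩
  · cases b
    · refine ⟨Nat.le_add_right _ _, by show x.l + j + i' ≤ _; omega, x.ins s' ?_⟩
      nlinarith [mul_le_mul_of_nonneg_left (abs_sub_le s' u x.t) p0.le, mul_nonneg p0.le n2]
    · refine ⟨Nat.le_add_right _ _, by show x.l + j + i ≤ _; omega, x.ins s ?_⟩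
      nlinarith [mul_nonneg p0.le n1]
  · have a := abs_sub_lt_of_fl1_eq (x := s) (y := s') e
    rw [← one_div, lt_div_iff₀ (by positivity), pow_add] at a
    have b : |u - x.t| ≤ |s' - u| + |s - s'| + |s - x.t| := by
      have := abs_sub_le u s' x.t
      have := abs_sub_le s' s x.t
      rw [abs_sub_comm u s', abs_sub_comm s' s] at *
      linarith
    nlinarith [mul_le_mul_of_nonneg_left b (mul_pos p0 q0).le, mul_le_mul_of_nonneg_left u1 q0.le]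

end Pool.Agent.MP_5168f5_an.QA.Perf
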