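import Pool.Agent.MP_4b405e_nt.H6.Pick
import Pool.Agent.MP_5168f5_an.QA.ToT1

/-! The multiplicity is at most the length of the paid windows. -/

namespace Pool.Agent.MP_5168f5_an.QA.Perf

open H19 H17S H17F MX Filter

/-- Configurations whose multiplicity exceeds the length of the paid windows. -/
def Sl (N : ℕ) (η₀ : ℝ) : Prop := ∀ ε : ℝ, 0 < ε → ∃ (y : ℕ → Cfg N) (M L : ℕ → ℕ)
  (W : ℕ → Finset ℕ) (Dh : ℕ → ℕ → ℝ), Pd y M L W Dh ε ∧ Big L ∧ (Sm M fun n => L n) ∧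
  ∀ᶠ n in UF, N * lg * ((W n).card * L n) + η₀ * M n ≤ mu (y n) (M n)

/-- There are no such configurations. -/
def NoSl : Prop := ∀ (N : ℕ) (η₀ : ℝ), 0 < η₀ → ¬Sl N η₀

theorem toT1 (hc : SChn) {N D : ℕ} (e1 : E1 N D) (e2 : E2 N D) (ex : EXT N D) (nj : NJ N D)
    {η' : ℝ} (h0 : 0 < η') (hn : Sl N η') :
    ∃ β₀ η₁ : ℝ, 0 < β₀ ∧ 0 < η₁ ∧ ∀ η θ₁ : ℝ, 0 < η → η ≤ η₁ → 0 < θ₁ →
    ∃ (θ β js Γ : ℝ) (kf : ℕ → ℕ) (sl : ℕ → ℝ) (X : ℕ → St N D), 0 ≤ θ ∧ θ ≤ θ₁ ∧ β₀ ≤ β ∧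
      T1' X η θ β js kf sl ∧ Lip X Set.univ Γ := by
  obtain ⟨C₁, c1, hc⟩ := hc N D e1 e2 ex nj
  have c0 : 0 < C₁ := by linarith
  set s := η' / 128 with hs
  have s0 : 0 < s := by positivity
  refine ⟨η' / 2 / 1000, min C₁⁻¹ (s / 2 / C₁), by positivity, by positivity,
    fun η θ₁ a1 a2 a3 => ?_⟩
  have t0 : 0 < min θ₁ (η ^ dV N D / C₁) := by positivity
  obtain ⟨I, hI⟩ := exists_nat_gt (8 * (C₁ + 2 * s) / s)
  have I0 : (0 : ℝ) < I := lt_trans (by positivity) hI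
  have v1 : 1 / (I + 1 : ℝ) ≤ 1 := div_le_one_of_le₀ (by linarith) (by positivity)
  obtain ⟨C, C0, hC⟩ := hc η _ s ⟨a1, (mul_le_mul_of_nonneg_left (a2.trans (min_le_left _ _))
    c0.le).trans_eq (mul_inv_cancel₀ c0.ne'), t0.le, (le_div_iff₀' c0).1 (min_le_right _ _)⟩ t0
    (by linarith [(le_div_iff₀' c0).1 (a2.trans (min_le_right _ _))]) (1 / (I + 1 : ℝ)) I
    (by positivity)
  obtain ⟨y, M, L, W, Dh, pd, s1, l2, s4⟩ := hn (s / (N + 1)) (by positivity)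
  have hy := pd.dsk
  obtain ⟨k, k1, k2⟩ := KSA.spill (fun k n => (k + 1) ^ (2 * I + 1) ≤ L n) fun k =>
    s1.eventually_ge_atTop _
  obtain ⟨w, hw⟩ : ∃ w : ℕ → ℕ, ∀ n, w n = k n + 1 := ⟨_, fun _ => rfl⟩
  have w0 : ∀ n, 0 < w n := fun n => hw n ▸ Nat.succ_pos _
  have w1 : ∀ n, (1 : ℝ) ≤ w n := fun n => by exact_mod_cast w0 n
  have w2 : Big w := tendsto_atTop_mono (fun n => (hw n).ge.trans' (Nat.le_succ _)) k1
  let X : ℕ → ℕ → ℝ := fun n r => if r = 0 then 0 else (w n : ℝ) ^ (2 * r + 1)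
  have x1 : ∀ n r, 0 ≤ X n r ∧ X n r ≤ (w n : ℝ) ^ (2 * r + 1) := fun n r => by
    simp only [X]; split_ifs <;> exact ⟨by positivity, by first | positivity | exact le_rfl⟩
  have x2 : ∀ n, Pen.Ok (min θ₁ (η ^ dV N D / C₁)) (1 / (I + 1 : ℝ)) (X n) := fun n =>
    ⟨t0.le, by positivity, v1, rfl, monotone_nat_of_le_succ fun r =>
      (x1 n r).2.trans (pow_le_pow_right₀ (w1 n) (by omega))⟩
  have ch : ∀ n, ∃ Y : Chn D (y n), C ≤ w n → Y.M = M n ∧ Y.w = w n ∧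
      Y.Ok η (min θ₁ (η ^ dV N D / C₁)) (1 / (I + 1 : ℝ)) s C (C₁ + 2 * s) (X n) I := fun n => by
    by_cases e : C ≤ w n
    · exact (hC (y n) (M n) (w n) (X n) (hy.box n) (hy.triv n) (hy.sep n) (w0 n) e (x2 n)).imp
        fun _ a _ => a
    · exact ⟨⟨Unit, 0, 0, fun _ _ => ⟨0, 0, 0⟩, fun _ _ => ()⟩, fun a => absurd a e⟩
  choose Y hY using ch
  have n1 : (1 : ℝ) ≤ N + 1 := by linarith [Nat.cast_nonneg (α := ℝ) N]
  obtain ⟨θ, β, js, Γ, kf, sl, Z, b1, b2, b3⟩ := sPk N D y M L w W Dh Y (η' / 2) (s / (N + 1)) η _ _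
    s C (C₁ + 2 * s) X I pd (by positivity) (by positivity) s0.le C0
    (by positivity) (by exact_mod_cast I0) (by
      filter_upwards [s4] with n a
      nlinarith [Nat.cast_nonneg (α := ℝ) (M n)])
    (by
      have a : 1 / (I + 1 : ℝ) ≤ 1 / I := one_div_le_one_div_of_le I0 (by linarith)
      have b : 8 * (1 / I) * (C₁ + 2 * s) ≤ s := by
        rw [div_lt_iff₀ s0] at hI
        rw [mul_right_comm, mul_one_div, div_le_iff₀ I0]
        linarith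
      rw [mul_div_cancel₀ _ (by positivity)]
      nlinarith [mul_le_mul_of_nonneg_right a (show 0 ≤ C₁ + 2 * s by positivity)])
    w2 l2
    (fun r hr => ⟨fun n => w n ^ (2 * r + 2), sm_of w2 (Eventually.of_forall fun n =>
        ⟨by positivity, by push_cast; rw [← pow_two]; exact pow_le_pow_right₀ (w1 n) (by omega)⟩),
      sm_of w2 (Eventually.of_forall fun n => ⟨(x1 n r).1, by
        push_cast; rw [pow_succ' _ (2 * r + 1)]
        exact mul_le_mul_of_nonneg_left (x1 n r).2 (by positivity)⟩),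
      fun A => (w2.ev (A + 1)).mono fun n a => by
        simp only [X, Nat.succ_ne_zero, if_false]
        push_cast
        rw [show 2 * (r + 1) + 1 = 2 * r + 2 + 1 by ring, pow_succ' _ (2 * r + 2)]
        exact mul_lt_mul_of_pos_right (by linarith) (by have := w1 n; positivity),
      sm_of w2 (k2.mono fun n a => ⟨by positivity, by
        have := a _ le_rfl
        rw [← hw] at this
        exact_mod_cast le_trans (by
          rw [← pow_succ']; exact Nat.pow_le_pow_right (w0 n) (by omega)) this⟩)⟩)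
    ((w2.ev C).mono fun n a => ⟨x2 n, hY n a⟩)
  exact ⟨θ, β, js, Γ, kf, sl, Z, b1, b2.trans (min_le_left _ _), b3⟩

theorem noSl_of (e1 : SE1) (e2 : SE2) (c1 : SCnt) (c2 : SCntF) (bl : BlkF) (og : SOpG)
    (fi : OfFill) (ti : OfTig) (ex : OfExt) (nj : OfNJ) (hc : SChn) (tg : ToTig) (en : END) :
    NoSl := by
  intro N η₀ h0 h
  cases N with
  | zero =>
    obtain ⟨y, M, L, W, Dh, pd, -, -, s⟩ := h 1 one_pos
    obtain ⟨n, a, b⟩ := (s.and (pd.dsk.big.ev 1)).exists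
    have : mu (y n) (M n) ≤ 0 := (ch_zero fun _ _ _ _ _ => Subsingleton.elim _ _).le
    simp only [Nat.cast_zero, zero_mul, zero_add] at a
    nlinarith
  | succ N =>
    obtain ⟨E, E₀, D₁, a1, -, a2⟩ := bl (N + 1)
    obtain ⟨D, d0, d1⟩ : ∃ D, D₁ ≤ D ∧ E + E₀ * E ≤ D := ⟨_, le_max_left _ _, le_max_right _ _⟩
    obtain ⟨a3, a4, a5⟩ := a2 D d0
    have b1 : E ≤ E + E₀ * E := Nat.le_add_right _ _
    have f := fi _ E E₀ D a3
    have t := ti og _ E D a4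
    have j := nj _ E _ D (b1.trans d1) (c1 _ _) f t
    obtain ⟨β₀, η₁, p1, p2, p3⟩ := toT1 hc (e1 _ _ (a1.trans (b1.trans d1))) (e2 _ _)
      (ex _ E _ D (b1.trans d1) (c1 _ _) f t) j h0 h
    obtain ⟨C, q1, q2⟩ := tg _ E D t
    obtain ⟨C', r1, r2⟩ :=
      en N E _ D ⟨a1, b1, d1, c1 _ _, c2 _ _, f, t, j, ⟨E₀, a3⟩, a4, a5⟩ β₀ p1
    have k0 : 0 < C + C' := by linarith
    have h1 : 0 < min η₁ (C + C')⁻¹ := lt_min p2 (inv_pos.2 k0)
    obtain ⟨θ, β, js, Γ, kf, sl, X, s1, s2, s3, s4, s5⟩ := p3 _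
      ((min η₁ (C + C')⁻¹) ^ dV (N + 1) D / (C + C')) h1 (min_le_left _ _) (by positivity)
    have pa : Par (N + 1) D (C + C') (min η₁ (C + C')⁻¹) θ :=
      ⟨h1, (mul_le_mul_of_nonneg_left (min_le_right _ _) k0.le).trans_eq (mul_inv_cancel₀ k0.ne'),
        s1, by rwa [le_div_iff₀ k0, mul_comm] at s2⟩
    obtain ⟨X', u⟩ := q2 _ θ β js Γ kf sl X (pa.mono (by linarith)) s4 s5
    exact r2 _ θ β js Γ kf sl X' (pa.mono (by linarith)) s3 u

end Pool.Agent.MP_5168f5_an.QA.Perf
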