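import Pool.Agent.MP_5168f5_an.QA.SelP

/-! The selection of the tangent system when only the paid windows are charged. -/

namespace Pool.Agent.MP_5168f5_an.QA.Perf

open H19 H17S H17F MX Filter Finset Pen Chn

/-- The selection of the tangent system. -/
def SPq : Prop := ∀ (N D : ℕ) (y : ℕ → Cfg N) (M L w : ℕ → ℕ) (W : ℕ → Finset ℕ)
  (Dh : ℕ → ℕ → ℝ) (Y : ∀ n, Chn D (y n)) (η₀ ε η t v s C C₀ : ℝ) (X : ℕ → ℕ → ℝ) (I : ℕ),
  Pd y M L W Dh ε → 0 < η₀ → 0 ≤ ε → 0 ≤ s → 0 ≤ C → 0 ≤ C₀ → 0 < I →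
  (∀ᶠ n in UF, N * lg * ((W n).card * L n) + η₀ * M n ≤ mu (y n) (M n)) →
  (N + 1) * ε + s + 8 * (v + 1 / I) * C₀ ≤ η₀ / 16 → Big w → (Sm M fun n => L n) →
  (∀ r < I, ∃ L₂ : ℕ → ℕ, (Sm L₂ fun n => w n) ∧ (Sm L₂ fun n => X n r) ∧
    (∀ A : ℝ, ∀ᶠ n in UF, A * L₂ n < X n (r + 1)) ∧ Sm L fun n => L₂ n) →
  (∀ᶠ n in UF, Pen.Ok t v (X n) ∧ (Y n).M = M n ∧ (Y n).w = w n ∧
    (Y n).Ok η t v s C C₀ (X n) I) →
  ∃ (θ β js Γ : ℝ) (kf : ℕ → ℕ) (sl : ℕ → ℝ) (Z : ℕ → St N D), 0 ≤ θ ∧ θ ≤ t ∧ η₀ / 1000 ≤ β ∧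
    T1' Z η θ β js kf sl ∧ Lip Z Set.univ Γ

theorem gain {N D : ℕ} {x : Cfg N} {Y : Chn D x} {η t v s C C₀ η₀ ε δ : ℝ} {X : ℕ → ℝ}
    {I r L : ℕ} {W : Finset ℕ} (h : Y.Ok η t v s C C₀ X I) (p : Pen.Ok t v X) (hI : 0 < I)
    (hε : 0 ≤ ε) (hC : 0 ≤ C) (tr : Fn x.P x.θ fun _ => ())
    (a2 : ∑ j ∈ W, ch x.P (fun ω => fl1 ((j + 1) * L) (x.z ω))
      (fun ω => (fl1 (j * L) (x.z ω), x.ln ω)) ≤ ε * Y.M)
    (a3 : N * lg * (W.card * L) + η₀ * Y.M ≤ mu x Y.M)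
    (a4 : (N + 1) * ε + s + 8 * (v + 1 / I) * C₀ ≤ η₀ / 16)
    (a5 : ∑ j ∈ range Y.T, (x.P.E fun ω => dr t v X r (Y.jp j ω)) ≤
      (v + 1 / I) * ∑ j ∈ range Y.T, x.P.E fun ω => pn t v X I (Y.jp j ω))
    (d0 : 0 < δ) (d1 : 1 ≤ δ * Y.w) (d2 : (Y.w : ℝ) ≤ δ * Y.M) (d3 : 1 ≤ δ * Y.M)
    (d4 : (35 * C + 2 * C ^ 2) * δ ≤ η₀ / 4) (e0 : 0 ≤ η₀) :
    N * lg * (W.card * L) + η₀ / 2 * Y.M ≤ Y.mV η t v C X r L W Y.M - Y.mV η t v C X r L W 0 := by
  have w0 : (0 : ℝ) < Y.w := (pos_iff_pos_of_mul_pos (one_pos.trans_le d1)).1 d0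
  have m0 : (0 : ℝ) ≤ Y.M := Nat.cast_nonneg _
  have n0 : (0 : ℝ) ≤ N := Nat.cast_nonneg _
  have b1 : (Y.M : ℝ) / Y.w ≤ δ * Y.M := by
    rw [div_le_iff₀ w0]; nlinarith
  have b2 : ∑ j ∈ range Y.T, (1 + Y.hc j) ≤ δ * Y.M + C * (δ * Y.M + δ * Y.M) := by
    have := h.uhc (by exact_mod_cast w0)
    rw [← le_div_iff₀' w0, add_div, mul_div_assoc, add_div, div_self w0.ne'] at this
    exact this.trans (add_le_add b1 (mul_le_mul_of_nonneg_left (add_le_add b1 d3) hC))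
  have b3 : ∑ j ∈ W, (Hz x ((j + 1) * L) - Hz x (j * L)) ≤ ε * Y.M :=
    (sum_le_sum fun j _ => (ch_win x.P (shOf x).l x.z (Nat.mul_le_mul_right _
      (Nat.le_succ j))).ge.trans (ch_anti ((Fn.fst _ _).pair ((ln_l tr).right _)))).trans a2
  have i1 : (1 : ℝ) ≤ I := by exact_mod_cast hI
  have i2 : 1 / (I : ℝ) ≤ 1 := (div_le_one (by linarith)).2 i1
  have i3 : 0 ≤ v + 1 / (I : ℝ) := add_nonneg p.v0 (by positivity)
  have b5 := mul_le_mul_of_nonneg_left (add_le_add b1 d2) hC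
  have b6 := a5.trans (mul_le_mul_of_nonneg_left (h.drf.trans (add_le_add le_rfl b5)) i3)
  have b7 := mul_le_mul_of_nonneg_right (show v + 1 / (I : ℝ) ≤ 2 by linarith [p.v1])
    (show 0 ≤ C * (δ * Y.M + δ * Y.M) by positivity)
  have b9 := mul_nonneg (mul_nonneg n0 hε) m0
  linarith [h.mV_tot (r := r) (L := L) (W := W), mul_le_mul_of_nonneg_left b2 hC,
    mul_le_mul_of_nonneg_right a4 m0, mul_le_mul_of_nonneg_right d4 m0, mul_nonneg e0 m0]

section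

variable {N D : ℕ} {y : ℕ → Cfg N} {M L w : ℕ → ℕ} {W : ℕ → Finset ℕ} {Dh X : ℕ → ℕ → ℝ}
  {Y : ∀ n, Chn D (y n)} {η₀ ε η t v s C C₀ : ℝ} {I : ℕ}

/-- The first zoom. -/
theorem st1p (pd : Pd y M L W Dh ε) (e0 : 0 < η₀) (hε : 0 ≤ ε) (hs : 0 ≤ s) (hC : 0 ≤ C)
    (hC₀ : 0 ≤ C₀) (hI : 0 < I)
    (a3 : ∀ᶠ n in UF, N * lg * ((W n).card * L n) + η₀ * M n ≤ mu (y n) (M n))
    (a4 : (N + 1) * ε + s + 8 * (v + 1 / I) * C₀ ≤ η₀ / 16) (hw : Big w) (hL : Sm M fun n => L n)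
    (h2 : ∀ r < I, ∃ L₂ : ℕ → ℕ, (Sm L₂ fun n => w n) ∧ (Sm L₂ fun n => X n r) ∧
      (∀ A : ℝ, ∀ᶠ n in UF, A * L₂ n < X n (r + 1)) ∧ Sm L fun n => L₂ n)
    (ok : ∀ᶠ n in UF, Pen.Ok t v (X n) ∧ (Y n).M = M n ∧ (Y n).w = w n ∧
      (Y n).Ok η t v s C C₀ (X n) I) :
    ∃ r < I, ∃ (β τ : ℝ) (c₁ u : ℕ → ℕ), η₀ / 64 ≤ β ∧ 0 ≤ τ ∧ Big u ∧ (Sm u fun n => w n) ∧
      (Sm u fun n => X n r) ∧ (∀ A : ℝ, ∀ᶠ n in UF, A * u n < X n (r + 1)) ∧ Unp M L W u c₁ ∧
      LinAt u c₁ (fun n => (Y n).mV η t v C (X n) r (L n) (W n)) β ∧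
      LinAt u c₁ (fun n => (Y n).mD η (Dh n)) τ := by
  obtain ⟨⟨r, hr⟩, a5⟩ := ev_ex (J := Fin I) (p := fun r n =>
    ∑ j ∈ range (Y n).T, ((y n).P.E fun ω => dr t v (X n) r ((Y n).jp j ω)) ≤
      (v + 1 / I) * ∑ j ∈ range (Y n).T, (y n).P.E fun ω => pn t v (X n) I ((Y n).jp j ω))
    (ok.mono fun n a => (a.1.pick hI _ _ _ fun j _ ω _ => (Y n).jp_nn j ω).elim fun i b =>
      ⟨⟨i, b.1⟩, b.2⟩)
  obtain ⟨L₂, l1, l2, l3, l4⟩ := h2 r hr
  have k1 : ∀ᶠ n in UF, (w n : ℝ) ≤ L₂ n := (l1 1 one_pos).mono fun n a => by linarith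
  have k2 : Sm L fun n => w n := l4.mono k1
  have k3 : Sm M fun n => w n := hL.mono ((k2 1 one_pos).mono fun n a => by linarith)
  have k4 : Big L₂ := tendsto_atTop_mono' _ (k1.mono fun n a => by exact_mod_cast a) hw
  have v0 : 0 ≤ v := ok.exists.elim fun _ a => a.1.v0
  have s1 : s ≤ η₀ / 16 := by
    have : 0 ≤ (N + 1) * ε + 8 * (v + 1 / I) * C₀ := by positivity
    linarith
  have g0 := lg_pos
  have d0 : 0 < η₀ / 4 / (35 * C + 2 * C ^ 2 + 1) := by positivity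
  obtain ⟨β, τ, c₁, M₀, b1, b2, b3, b4⟩ := win (M := M) (L := L) (L₂ := L₂) (W := W)
    (V := fun n => (Y n).mV η t v C (X n) r (L n) (W n)) (D := fun n => (Y n).mD η (Dh n))
    (e := fun n => ((N + 1) * lg + s) * w n) (g := N * lg) (C := (N + 1) * lg + s) (η := η₀ / 2)
    (A := 5 + 6 * C) k4 l4 hL (by positivity) (by positivity) (by positivity) (by positivity)
    (l1.smul (by positivity)) (fun n => (Y n).mD_mono η (pd.mono n).1) (by
      filter_upwards [ok, pd.top, k3 1 one_pos, hw.ev 1] with n ⟨_, a, b, c⟩ d e f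
      have := c.mD_tot (b ▸ by exact_mod_cast one_pos.trans_le f) (Dh n)
      rw [a, b, (pd.mono n).2] at this
      nlinarith) (by
      filter_upwards [ok, k2.smul (c := (N + 1) * lg + s) (by positivity) (η₀ / 16) (by positivity),
        hw.ev 1, k2 1 one_pos] with n ⟨p, a, b, c⟩ d e f j hj k
      have := c.mV_step (r := r) (L := L n) (W := W n) p hs (b ▸ by
        exact_mod_cast one_pos.trans_le e) (Nat.mul_le_mul_right (L n) (Nat.le_succ j)) (a ▸ k)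
      have z := Hp_paid (x := y n) (L := L n) (by exact_mod_cast (by linarith : (0 : ℝ) < L n)) hj
      rw [b] at this
      push_cast at this
      nlinarith [mul_le_mul_of_nonneg_right s1 (Nat.cast_nonneg (α := ℝ) (L n))]) (by
      filter_upwards [ok, hw.ev 1] with n ⟨p, a, b, c⟩ e c₁ c₂ k k'
      have := c.mV_step (r := r) (L := L n) (W := W n) p hs
        (b ▸ by exact_mod_cast one_pos.trans_le e) k (a ▸ k')
      have z := Hz_le (x := y n) (c := c₁) (c' := c₂) (d := c₂ - c₁) (by omega)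
      rw [Nat.cast_sub k] at z
      rw [b] at this
      linarith [Hp_mono (x := y n) (L n) (W n) k]) (by
      filter_upwards [ok, pd.paid, a3, a5, hw.sm 1 _ d0, k3 _ d0, pd.dsk.big.sm 1 _ d0]
        with n ⟨p, a, b, c⟩ f2 f3 f4 f5 f6 f7
      rw [← a] at f2 f3 f6 f7 ⊢
      rw [← b] at f5 f6
      refine gain c p hI hε hC (pd.dsk.triv n) f2 f3 a4 f4 d0 (by linarith) (by linarith)
        (by linarith) ?_ e0.le
      rw [← mul_div_assoc, div_le_iff₀ (by positivity)]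
      linarith)
  obtain ⟨u, u1, u2, u3⟩ := ex_mid k4 (sm_max b3 (sm_max l1 l2))
  refine ⟨r, hr, β, τ, c₁, u, by linarith, b2, u1, u3.mono (Eventually.of_forall fun n =>
    le_max_of_le_right (le_max_left _ _)), u3.mono (Eventually.of_forall fun n =>
    le_max_of_le_right (le_max_right _ _)), fun A => ?_,
    b4 u u1 u2 (u3.mono (Eventually.of_forall fun n => le_max_left _ _))⟩
  filter_upwards [l3 |A|, u2 1 one_pos] with n a b
  exact (mul_le_mul (le_abs_self A) (by linarith) (Nat.cast_nonneg _) (abs_nonneg _)).trans_lt a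

end

theorem sPk : SPq := by
  intro N D y M L w W Dh Y η₀ ε η t v s C C₀ X I pd e0 hε hs hC hC₀ hI a3 a4 hw hL h2 ok
  obtain ⟨r, hr, β₁, τ, c, u, b1, b2, hu, uw, uX, xu, un, lV, ld⟩ :=
    st1p pd e0 hε hs hC hC₀ hI a3 a4 hw hL h2 ok
  obtain ⟨kf, A, o, H, p1, p2, p3⟩ := st2 pd e0 hC hw hu uw un b1 b2 lV ld ok
  obtain ⟨M₁, m1, m2⟩ := ht_slow H
  obtain ⟨X₀, p0⟩ : ∃ X₀, Pen.Ok t v X₀ := ok.exists.elim fun _ a => ⟨_, a.1⟩
  have θ0 := p0.th_nonneg r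
  have mj := fun n => (Y n).pw_mono (a := (Y n).jp) (ω := o n) fun j => (Y n).jp_nn j _
  obtain ⟨σ, Γ, β, d, M₀, β0, m3, m4⟩ := zoom (ι := Option (Option (Fin (dV N D + 1)))) (u := u)
    (c := c) (f := fun j n a => j.elim ((Y n).pw (Y n).jp (o n) a) fun j =>
      j.elim (Real.log ((Y n).S ((Y n).ix a) (o n)).J) fun k => sg k ((Y n).S ((Y n).ix a) (o n)).ν)
    (T := fun n => (Y n).pw ((Y n).tv η) (o n)) (A := A) (C := C) (g := η₀ / 100) (δ := η₀ / 200)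
    (φ := fun n a => (Y n).ψ η ((Y n).ix a) (o n) - 8 * th t v r * (Y n).pw (Y n).jp (o n) a)
    hu (by positivity) (fun n => (Y n).pw_mono fun j => (Y n).tv_nn η j _) (fun j n a a' e => by
      rcases j with _ | _ | k
      · exact (abs_of_nonneg (sub_nonneg.2 (mj n e))).trans_le ((Y n).pw_jp η _ e)
      · exact (Y n).dom (F := fun j => Real.log ((Y n).S j (o n)).J)
          (fun j => ((Y n).jp_tv η j _).2.2) e
      · exact ((single_le_sum (f := fun k => |sg k ((Y n).S ((Y n).ix a') (o n)).ν -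
          sg k ((Y n).S ((Y n).ix a) (o n)).ν|) (fun _ _ => abs_nonneg _)
          (mem_range.2 k.2)).trans ((Y n).sg_sum _ e)).trans ((Y n).pw_jp η _ e))
    (p1.mono fun _ a => a.2.2) (fun δ hδ => by
      filter_upwards [ok, ((uw.smul hC).add p2) δ hδ, un 1, hw.ev 1] with n k f g g' a a' e1 e2 e3
      have z := (Y n).psi_le η hC (k.2.2.1 ▸ by exact_mod_cast one_pos.trans_le g') (o n) e2
        (e3.trans (k.2.1 ▸ (g.2 _ (by simp)).1))
      have mR := (Y n).pw_mono (a := (Y n).Rr η C) (ω := o n) fun _ => le_max_left _ _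
      rw [k.2.2.1] at z
      linarith [mR e1, mR e3, mul_le_mul_of_nonneg_left (mj n e2) θ0]) (by
      filter_upwards [p1, xu A] with n k f
      have le := Nat.le_add_right (c n) (u n)
      have z := ((Y n).pw_jp η (o n) le).trans_lt (k.2.2.trans_lt f)
      have z1 := k.2.1
      have z3 := (Y n).up_sub (fun j => (Y n).jp j (o n)) le
      simp only [pw, z3] at z
      have z2 := path (t := t) (v := v) _ _ (fun j _ => (Y n).jp_nn j _) z
      rw [← z3] at z2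
      simp only [pw, (Y n).up_sub _ le] at z1
      simp only [pw]
      linarith)
  obtain ⟨u', u1, u2, u3⟩ := ex_mid hu (sm_max (sm_max m1 m3) (sm_max uw (sm_max uX p3)))
  have uw' : Sm u' fun n => w n :=
    u3.mono (Eventually.of_forall fun n => le_max_of_le_right (le_max_left _ _))
  obtain ⟨d1, d2, d3, d4⟩ := m4 u' u2
    (u3.mono (Eventually.of_forall fun n => le_max_of_le_left (le_max_right _ _)))
  have l1 : ∀ k ≤ dV N D, LinAt u' (fun n => c n + d n)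
      (fun n a => sg k ((Y n).S ((Y n).ix a) (o n)).ν)
      (if h : k < dV N D + 1 then σ (some (some ⟨k, h⟩)) else 0) := fun k hk => by
    rw [dif_pos (Nat.lt_succ_of_le hk)]
    exact d2 (some (some ⟨k, _⟩))
  have s1 := slope_le u1 l1 (d2 none) fun n a a' e => (Y n).sg_sum (o n) e
  have s2 := mul_nonneg θ0 ((sum_nonneg fun _ _ => abs_nonneg _).trans s1)
  have wd : ∀ R : ℝ, ∀ᶠ n in UF, ∀ a : ℕ, ((c n + d n : ℕ) : ℝ) ≤ a + R * u' n → c n ≤ a :=
    fun R => (d1 R).mono fun n e a f => by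
      push_cast at f
      exact_mod_cast (by linarith [e.1] : (c n : ℝ) ≤ a)
  have wd' : ∀ R : ℝ, ∀ᶠ n in UF, ∀ a : ℕ, (a : ℝ) ≤ (c n + d n : ℕ) + R * u' n → a ≤ c n + u n :=
    fun R => (d1 R).mono fun n e a f => by
      push_cast at f
      exact_mod_cast (by linarith [e.2] : (a : ℝ) ≤ c n + u n)
  obtain ⟨Z, z1, z2⟩ := fin (a := fun n => (Y n).ix (c n + u n)) (b := fun n => (Y n).ix (c n - u n))
    (kf := kf) (β := 1 * β + 8 * th t v r * σ none) pd.dsk.box hr.le p0.t0 u1 uw'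
    (u3.mono (Eventually.of_forall fun n => le_max_of_le_right (le_max_of_le_right
      (le_max_left _ _)))) (u3.mono (Eventually.of_forall fun n => le_max_of_le_right
      (le_max_of_le_right (le_max_right _ _)))) (by
      filter_upwards [ok, p1, hw.ev 1] with n k f g
      exact ⟨f.1, k.2.2.1, k.2.2.1 ▸ by exact_mod_cast one_pos.trans_le g, k.2.2.2⟩)
    (fun R => (d1 R).mono fun n e => by
      push_cast
      linarith [e.1, (Nat.cast_nonneg (c n) : (0 : ℝ) ≤ _)]) (fun R => by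
      filter_upwards [wd R, wd' R, ok, un 1, uw 1 one_pos, hw.ev 1] with n e e' k f g g' a h
      have f1 := e a (by linarith [(abs_le.1 h).1])
      have f2 := e' a (by linarith [(abs_le.1 h).2])
      have f3 : c n + u n ≤ (Y n).M := k.2.1 ▸ (f.2 _ (by simp)).1
      have f4 : u n ≤ c n := by exact_mod_cast (by linarith [f.1] : (u n : ℝ) ≤ c n)
      have f5 : w n ≤ u n := by exact_mod_cast (by linarith : (w n : ℝ) ≤ u n)
      have f6 : 0 < w n := by exact_mod_cast one_pos.trans_le g'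
      refine ⟨f2.trans f3, (Y n).ix_anti f2, ((Y n).ix_anti f1).trans_lt ?_⟩
      have f7 : (c n - u n) / w n + 1 ≤ c n / w n := by
        rw [← Nat.add_div_right _ f6]
        exact Nat.div_le_div_right (by omega)
      have f8 : c n / w n ≤ (Y n).M / w n := Nat.div_le_div_right (by omega)
      simp only [ix, T, k.2.2.1]
      omega) l1 (d2 (some none)) (d4.comb (d2 none) 1 _ fun n a => by
        simp only [Option.elim]; ring) d3 (fun i R a a' e => by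
      have k : ∀ᶠ n in UF, c n ≤ a n ∧ a n ≤ a' n ∧ a' n ≤ c n + u n := by
        filter_upwards [e, wd R, wd' R] with n f g g' using ⟨g _ f.1, f.2.1, g' _ f.2.2⟩
      refine (((m2 u' (u3.mono (Eventually.of_forall fun n => le_max_of_le_left (le_max_left _ _)))
        i (fun n => a n - c n) (fun n => a' n - c n) (k.mono fun n f => by omega)).coarse
        (k.mono fun n f ω _ ω' _ z => ?_)).congr (k.mono fun n f ω _ => ?_)).mono
        (Le.of_ev (k.mono fun n f => ?_))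
      · simp only [fl1_pow, Nat.add_sub_cancel' f.1, Prod.mk.injEq] at z
        exact Prod.ext z.2 z.1
      · rw [← mul_assoc, ← pow_add, Nat.sub_add_cancel (f.1.trans f.2.1)]
      · rw [Nat.cast_sub f.1, Nat.cast_sub (f.1.trans f.2.1), sub_sub_sub_cancel_right])
    (by linarith [mul_le_mul_of_nonneg_left s1 θ0])
  exact ⟨_, _, _, _, kf, _, Z, θ0, (p0.th_anti (Nat.zero_le r)).trans_eq th_zero, by linarith,
    z1, z2⟩

end Pool.Agent.MP_5168f5_an.QA.Perf
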